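import Mathlib
import Pool.Agent.K9h9.Nil

/-!
# Auxiliary coefficients with a given support `j < Kf i`, and the zero estimate for them
-/

set_option autoImplicit false

namespace Pool.Agent.K9h9.T3

open Finset Polynomial

attribute [local instance] Matrix.seminormedAddCommGroup in
/-- Siegel's lemma for coefficients supported in `j < Kf i`. -/
lemma exists_coeffs_tri {q : ℕ} (hq : q.Prime) {c L K M G N : ℕ} {Kf : ℕ → ℕ}
    (hKf : ∀ i < L, Kf i ≤ K) (hN : N = ∑ i ∈ range L, Kf i) (hM : 1 ≤ M) (hMN : M < N)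
    (hG : (L - 1) * c + (K - 1) * q ≤ G * q) :
    ∃ t : ℕ → ℕ → ℤ, (∃ i < L, ∃ j < K, t i j ≠ 0) ∧ (∀ i j, Kf i ≤ j → t i j = 0) ∧
      Van q c L K M t ∧
      ∀ i j, |(t i j : ℝ)| ≤ ((N : ℕ) * ((q : ℝ) ^ (2 * M) * 2 ^ G)) ^
        ((M : ℝ) / ((N : ℕ) - M)) := by
  have hq1 : (1 : ℝ) ≤ q := by exact_mod_cast hq.one_lt.le
  have hB1 : (1 : ℝ) ≤ (q : ℝ) ^ (2 * M) * 2 ^ G :=
    one_le_mul_of_one_le_of_one_le (one_le_pow₀ hq1) (one_le_pow₀ (by norm_num))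
  have hcard : Fintype.card ((i : Fin L) × Fin (Kf i)) = N := by
    rw [Fintype.card_sigma, hN, Finset.sum_range]
    simp
  obtain ⟨A, hA⟩ : ∃ A : Matrix (Fin M) ((i : Fin L) × Fin (Kf i)) ℤ,
      A = Matrix.of fun (n : Fin M) (ij : (i : Fin L) × Fin (Kf i)) =>
        beta q ((ij.1 : ℕ) * c + (ij.2 : ℕ) * q) n := ⟨_, rfl⟩
  have hAnorm : ‖A‖ ≤ (q : ℝ) ^ (2 * M) * 2 ^ G := by
    rw [Matrix.norm_le_iff (by linarith)]
    intro n ij
    rw [hA, Matrix.of_apply, Int.norm_eq_abs]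
    have h1 : (((ij.1 : ℕ) : ℤ) * c + (ij.2 : ℕ) * q) ≤ G * q := by
      have h2 : (ij.1 : ℕ) ≤ L - 1 := by have := ij.1.2; omega
      have h3 : (ij.2 : ℕ) ≤ K - 1 := by
        have := ij.2.2
        have := hKf ij.1 ij.1.2
        omega
      have h4 : (ij.1 : ℕ) * c + (ij.2 : ℕ) * q ≤ G * q :=
        (add_le_add (Nat.mul_le_mul_right _ h2) (Nat.mul_le_mul_right _ h3)).trans hG
      exact_mod_cast h4
    have h5 := abs_beta_le hq (by positivity) h1 n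
    have h6 : |((beta q (((ij.1 : ℕ) : ℤ) * c + (ij.2 : ℕ) * q) n : ℤ) : ℝ)| ≤
        (q : ℝ) ^ (2 * (n : ℕ)) * 2 ^ G := by exact_mod_cast h5
    refine h6.trans ?_
    have h7 : (q : ℝ) ^ (2 * (n : ℕ)) ≤ (q : ℝ) ^ (2 * M) :=
      pow_le_pow_right₀ hq1 (by have := n.2; omega)
    gcongr
  obtain ⟨v, hv0, hv1, hv2⟩ := Int.Matrix.exists_ne_zero_int_vec_norm_le A
    (by rw [hcard]; simpa using hMN) (by simpa using Nat.lt_of_lt_of_le Nat.one_pos hM)
  rw [hcard] at hv2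
  simp only [Fintype.card_fin] at hv2
  have hbound : ‖v‖ ≤ ((N : ℕ) * ((q : ℝ) ^ (2 * M) * 2 ^ G)) ^
        ((M : ℝ) / ((N : ℕ) - M)) := by
    refine hv2.trans ?_
    have h8 : (0 : ℝ) < (N : ℕ) - M := by
      have : (M : ℝ) < (N : ℕ) := by exact_mod_cast hMN
      linarith
    refine Real.rpow_le_rpow (by positivity) ?_ (by positivity)
    have h9 : max 1 ‖A‖ ≤ (q : ℝ) ^ (2 * M) * 2 ^ G := max_le hB1 hAnorm
    gcongr
  refine ⟨fun i j => if h : i < L ∧ j < Kf i then v ⟨⟨i, h.1⟩, ⟨j, h.2⟩⟩ else 0, ?_, ?_, ?_, ?_⟩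
  · obtain ⟨ij, hij⟩ := Function.ne_iff.mp hv0
    refine ⟨ij.1, ij.1.2, ij.2, ij.2.2.trans_le (hKf _ ij.1.2), ?_⟩
    have h1 : ((ij.1 : ℕ) < L ∧ (ij.2 : ℕ) < Kf ij.1) := ⟨ij.1.2, ij.2.2⟩
    simp only [dif_pos h1]
    exact hij
  · intro i j hij
    have h1 : ¬ (i < L ∧ j < Kf i) := by omega
    simp only [dif_neg h1]
  · intro n hn
    have h1 := congrFun hv1 ⟨n, hn⟩
    rw [Matrix.mulVec, dotProduct, Fintype.sum_sigma] at h1
    simp only [Pi.zero_apply] at h1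
    refine Eq.trans ?_ h1
    rw [Finset.sum_range]
    refine sum_congr rfl ?_
    intro i _
    have h3 : ∑ j ∈ range K, (if h : (i : ℕ) < L ∧ j < Kf i then v ⟨⟨i, h.1⟩, ⟨j, h.2⟩⟩ else 0) *
        beta q ((i : ℕ) * c + j * q) n = ∑ j ∈ range (Kf i),
        (if h : (i : ℕ) < L ∧ j < Kf i then v ⟨⟨i, h.1⟩, ⟨j, h.2⟩⟩ else 0) *
        beta q ((i : ℕ) * c + j * q) n := by
      symm
      refine sum_subset (range_subset_range.mpr (hKf i i.2)) ?_
      intro j _ hj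
      have h4 : ¬ ((i : ℕ) < L ∧ j < Kf i) := by
        rw [mem_range] at hj
        omega
      rw [dif_neg h4, zero_mul]
    rw [h3, Finset.sum_range]
    refine sum_congr rfl ?_
    intro j _
    have h2 : ((i : ℕ) < L ∧ (j : ℕ) < Kf i) := ⟨i.2, j.2⟩
    simp only [dif_pos h2]
    rw [hA, Matrix.of_apply]
    ring
  · intro i j
    by_cases h : i < L ∧ j < Kf i
    · simp only [dif_pos h]
      have := norm_le_pi_norm v ⟨⟨i, h.1⟩, ⟨j, h.2⟩⟩
      rw [Int.norm_eq_abs] at this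
      exact this.trans hbound
    · simp only [dif_neg h]
      simp only [Int.cast_zero, abs_zero]
      positivity

section Estimate

variable {r K : ℕ} (c : Fin r → ℕ → ℚ) (ν w : Fin r → ℚ)

lemma natDegree_det_le_tri {Ks : Fin r → ℕ} (hKs : ∀ s j, Ks s ≤ j → c s j = 0) :
    (Wm K c ν).det.natDegree ≤ ∑ s, (Ks s - 1) := by
  classical
  rw [Matrix.det_apply]
  refine natDegree_sum_le_of_forall_le _ _ ?_
  intro σ _
  refine (natDegree_smul_le _ _).trans ?_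
  refine (natDegree_prod_le _ _).trans ?_
  refine sum_le_sum ?_
  intro i _
  simp only [Wm, Matrix.of_apply]
  refine natDegree_sum_le_of_forall_le _ _ ?_
  intro j _
  rcases Nat.lt_or_ge j (Ks i) with h | h
  · refine (natDegree_C_mul_X_pow_le _ _).trans ?_
    omega
  · rw [hKs i j h]
    simp

theorem zero_estimate_tri {M μ : ℕ} {σ : ℚ} {Ks : Fin r → ℕ} (hKs : ∀ s j, Ks s ≤ j → c s j = 0)
    (hr : 1 ≤ r) (hσ0 : σ ≠ 0) (hσ1 : σ ≠ 1)
    (hw : ∀ s, w s ≠ 0) (hc : ∀ s, ∃ j < K, c s j ≠ 0)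
    (hν : ∀ s s', s ≠ s' → ∀ a b : ℕ, (a : ℚ) + ν s ≠ b + ν s')
    (h1 : ∀ k n : ℕ, k + n < M →
      ∑ s, ∑ j ∈ range K, c s j * (j + ν s) ^ k * bq (j + ν s) n = 0)
    (h2 : ∀ k n : ℕ, k + n < μ →
      ∑ s, ∑ j ∈ range K, c s j * (w s * σ ^ j) * (j + ν s) ^ k * bq (j + ν s) n = 0) :
    (M + 1 - r) + (μ + 1 - r) ≤ ∑ s, (Ks s - 1) := by
  have hd1 : (X - C (1 : ℚ)) ^ (M + 1 - r) ∣ (Wm K c ν).det := by
    refine det_point c ν (fun _ => 1) hr one_ne_zero (fun _ => one_ne_zero) ?_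
    intro k n hkn
    simpa using h1 k n hkn
  have hd2 := det_point c ν w hr hσ0 hw h2
  have hne := det_ne_zero c ν hc hν
  have hcop : IsCoprime ((X - C (1 : ℚ)) ^ (M + 1 - r)) ((X - C σ) ^ (μ + 1 - r)) := by
    apply IsCoprime.pow
    exact Polynomial.isCoprime_X_sub_C_of_isUnit_sub (sub_ne_zero.mpr (Ne.symm hσ1)).isUnit
  have hd := hcop.mul_dvd hd1 hd2
  have h3 := natDegree_le_of_dvd hd hne
  rw [natDegree_mul (pow_ne_zero _ (X_sub_C_ne_zero _)) (pow_ne_zero _ (X_sub_C_ne_zero _)),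
    natDegree_pow, natDegree_pow, natDegree_X_sub_C, natDegree_X_sub_C, mul_one, mul_one] at h3
  exact h3.trans (natDegree_det_le_tri c ν hKs)

end Estimate

theorem exists_Nk_ne_zero_tri {q : ℕ} (hq : q.Prime) {c L K M N : ℕ} {Kf : ℕ → ℕ} (hc : ¬ q ∣ c)
    (hLq : L ≤ q) (hN : N = ∑ i ∈ range L, Kf i) (hMN : M < N)
    {t : ℕ → ℕ → ℤ} (ht0 : ∃ i < L, ∃ j < K, t i j ≠ 0) (hts : ∀ i j, Kf i ≤ j → t i j = 0)
    (ht : Van q c L K M t)
    {b B0 X A : ℤ} (hb : b ≠ 0) (hB0 : B0 ≠ 0) (hX : X ≠ 0) (hA : A ≠ 0) (hXA : X ≠ A) :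
    ∃ k ≤ N + L - M - 2, Nk q c L K t b B0 X A k ≠ 0 := by
  classical
  by_contra hcon
  push Not at hcon
  have hq0 : (q : ℚ) ≠ 0 := by exact_mod_cast hq.ne_zero
  have hb' : (b : ℚ) ≠ 0 := by exact_mod_cast hb
  have hB' : (B0 : ℚ) ≠ 0 := by exact_mod_cast hB0
  have hX' : (X : ℚ) ≠ 0 := by exact_mod_cast hX
  have hA' : (A : ℚ) ≠ 0 := by exact_mod_cast hA
  obtain ⟨α, hα⟩ : ∃ α : ℚ, α = b / B0 := ⟨_, rfl⟩
  obtain ⟨σ, hσ⟩ : ∃ σ : ℚ, σ = X / A := ⟨_, rfl⟩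
  have hα0 : α ≠ 0 := by
    rw [hα]
    exact div_ne_zero hb' hB'
  have hσ0 : σ ≠ 0 := by
    rw [hσ]
    exact div_ne_zero hX' hA'
  have hσ1 : σ ≠ 1 := by
    rw [hσ]
    intro h
    rw [div_eq_one_iff_eq hA'] at h
    exact hXA (by exact_mod_cast h)
  obtain ⟨i0, hi0, j0, hj0, htij⟩ := ht0
  have hL1 : 1 ≤ L := by omega
  obtain ⟨μ, hμ⟩ : ∃ μ, μ = N + L - M - 1 := ⟨_, rfl⟩
  have hvan2 : ∀ n < μ, ∑ x ∈ range L ×ˢ range K,
      (t x.1 x.2 * (α ^ x.1 * σ ^ x.2)) * bq ((x.1 : ℚ) * c / q + x.2) n = 0 := by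
    intro n hn
    have h1 := hcon n (by omega)
    have h2 := Nk_rat hq (c := c) (L := L) (K := K) t (b := b) (X := X) hB0 hA n
    rw [h1, ← hα, ← hσ] at h2
    have h3 : (B0 : ℚ) ^ (L - 1) * (A : ℚ) ^ (K - 1) * (q : ℚ) ^ (2 * n) ≠ 0 := by positivity
    rw [Int.cast_zero, eq_comm, mul_eq_zero] at h2
    exact h2.resolve_left h3
  obtain ⟨I, hI⟩ : ∃ I : Finset ℕ, I = (range L).filter (fun i => ∃ j < K, t i j ≠ 0) := ⟨_, rfl⟩
  have hIcard : I.card ≤ L := by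
    rw [hI]
    exact (card_filter_le _ _).trans (card_range L).le
  have hIpos : 1 ≤ I.card := by
    rw [Nat.succ_le_iff, card_pos]
    refine ⟨i0, ?_⟩
    rw [hI, mem_filter, mem_range]
    exact ⟨hi0, j0, hj0, htij⟩
  have hmem : ∀ i ∈ I, i < L ∧ ∃ j < K, t i j ≠ 0 := by
    intro i hi
    rw [hI, mem_filter, mem_range] at hi
    exact hi
  obtain ⟨r, hr⟩ : ∃ r, r = I.card := ⟨_, rfl⟩
  obtain ⟨e⟩ : Nonempty (Fin r ≃ I) := ⟨by rw [hr]; exact I.equivFin.symm⟩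
  have hsum : ∀ f : ℕ → ℕ → ℚ, (∀ i j, j < K → t i j = 0 → f i j = 0) →
      ∑ s : Fin r, ∑ j ∈ range K, f (e s) j = ∑ x ∈ range L ×ˢ range K, f x.1 x.2 := by
    intro f hf
    rw [Finset.sum_product]
    have h1 : ∑ s : Fin r, ∑ j ∈ range K, f (e s) j = ∑ i : I, ∑ j ∈ range K, f i j :=
      Equiv.sum_comp e (fun i : I => ∑ j ∈ range K, f i j)
    rw [h1, Finset.sum_coe_sort I (fun i => ∑ j ∈ range K, f i j), hI, sum_filter]
    refine sum_congr rfl ?_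
    intro i _
    split_ifs with h
    · rfl
    · push Not at h
      refine (sum_eq_zero ?_).symm
      intro j hj
      have hj' := mem_range.mp hj
      exact hf i j hj' (h j hj')
  have hsumK : ∑ s : Fin r, (Kf (e s) - 1) + r ≤ N := by
    have h1 : ∑ s : Fin r, (Kf (e s) - 1) + r = ∑ s : Fin r, ((Kf (e s) - 1) + 1) := by
      rw [sum_add_distrib]
      simp
    have h2 : ∀ s : Fin r, (Kf (e s) - 1) + 1 = Kf (e s) := by
      intro s
      obtain ⟨j, hj, hj2⟩ := (hmem _ (e s).2).2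
      have h3 : j < Kf (e s) := by
        by_contra h4
        exact hj2 (hts _ _ (by omega))
      omega
    rw [h1, sum_congr rfl (fun s _ => h2 s)]
    have h3 : ∑ s : Fin r, Kf (e s) = ∑ i : I, Kf i := Equiv.sum_comp e (fun i : I => Kf i)
    rw [h3, Finset.sum_coe_sort I (fun i => Kf i), hN, hI]
    exact sum_le_sum_of_subset (filter_subset _ _)
  have hmain := zero_estimate_tri (r := r) (K := K) (fun s j => (t (e s) j : ℚ))
    (fun s => ((e s : ℕ) : ℚ) * c / q) (fun s => α ^ (e s : ℕ)) (M := M) (μ := μ) (σ := σ)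
    (Ks := fun s => Kf (e s)) ?_
    (by omega) hσ0 hσ1 (fun s => pow_ne_zero _ hα0) ?_ ?_ ?_ ?_
  · have h1 : r ≤ L := by omega
    omega
  · intro s j hj
    have := hts (e s) j hj
    simp only [this, Int.cast_zero]
  · intro s
    obtain ⟨j, hj, hj2⟩ := (hmem _ (e s).2).2
    exact ⟨j, hj, by exact_mod_cast hj2⟩
  · intro s s' hss a b' hab
    have h1 : (((e s : ℕ) : ℤ) - (e s' : ℕ)) * c = ((b' : ℤ) - a) * q := by
      have h2 : (((e s : ℕ) : ℚ) - (e s' : ℕ)) * c = ((b' : ℚ) - a) * q := by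
        field_simp at hab
        linarith
      exact_mod_cast h2
    have h3 : (q : ℤ) ∣ (((e s : ℕ) : ℤ) - (e s' : ℕ)) * c := ⟨_, by rw [h1, mul_comm]⟩
    have h4 : (q : ℤ) ∣ (((e s : ℕ) : ℤ) - (e s' : ℕ)) := by
      rcases (Nat.prime_iff_prime_int.mp hq).dvd_or_dvd h3 with h | h
      · exact h
      · exact absurd (by exact_mod_cast h) hc
    have h5 : (e s : ℕ) < L := (hmem _ (e s).2).1
    have h6 : (e s' : ℕ) < L := (hmem _ (e s').2).1
    have h7 : (((e s : ℕ) : ℤ) - (e s' : ℕ)) = 0 := by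
      apply Int.eq_zero_of_abs_lt_dvd h4
      rw [abs_lt]
      constructor <;> omega
    apply hss
    apply e.injective
    apply Subtype.ext
    omega
  · intro k n hkn
    have h1 := moments (ht.rat hq) k n hkn
    rw [← h1]
    rw [← hsum (fun i j => (t i j : ℚ) * ((i : ℚ) * c / q + j) ^ k * bq ((i : ℚ) * c / q + j) n)]
    · refine sum_congr rfl ?_
      intro s _
      refine sum_congr rfl ?_
      intro j _
      rw [add_comm (j : ℚ)]
    · intro i j _ h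
      rw [h]
      simp
  · intro k n hkn
    have h1 := moments hvan2 k n hkn
    rw [← h1]
    rw [← hsum (fun i j => (t i j : ℚ) * (α ^ i * σ ^ j) * ((i : ℚ) * c / q + j) ^ k *
      bq ((i : ℚ) * c / q + j) n)]
    · refine sum_congr rfl ?_
      intro s _
      refine sum_congr rfl ?_
      intro j _
      rw [add_comm (j : ℚ)]
    · intro i j _ h
      rw [h]
      simp

end Pool.Agent.K9h9.T3
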