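import Mathlib
import Pool.Agent.K9h9.T3.Tri

/-!
# The main inequality with a triangular index set
-/

set_option autoImplicit false

namespace Pool.Agent.K9h9.T3

open Finset

/-- The constant of the main inequality. -/
noncomputable def CT (q L K N M G : ℕ) : ℝ :=
  (L * K : ℕ) * ((N : ℕ) * ((q : ℝ) ^ (2 * M) * 2 ^ G)) ^ ((M : ℝ) / ((N : ℕ) - M)) *
    ((q : ℝ) ^ (2 * (N + L - M - 2)) * 2 ^ G)

lemma abs_Nk_le_tri {q : ℕ} (hq : q.Prime) {c L K G : ℕ} {Kf : ℕ → ℕ}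
    (hG : (L - 1) * c + (K - 1) * q ≤ G * q) {t : ℕ → ℕ → ℤ}
    (hts : ∀ i j, Kf i ≤ j → t i j = 0) {B : ℝ}
    (hB : ∀ i j, |(t i j : ℝ)| ≤ B) {b B0 X A : ℤ} {H : ℝ} (hH0 : 0 ≤ H)
    (hH : ∀ i < L, ∀ j < Kf i, j < K → |(b : ℝ)| ^ i * |(B0 : ℝ)| ^ (L - 1 - i) *
      (|(X : ℝ)| ^ j * |(A : ℝ)| ^ (K - 1 - j)) ≤ H) (k : ℕ) :
    |(Nk q c L K t b B0 X A k : ℝ)| ≤
      (L * K : ℕ) * B * ((q : ℝ) ^ (2 * k) * 2 ^ G) * H := by
  have hB' : 0 ≤ B := (abs_nonneg _).trans (hB 0 0)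
  rw [Nk, ← Finset.sum_product']
  push_cast
  refine (abs_sum_le_sum_abs _ _).trans ?_
  have hterm : ∀ x ∈ range L ×ˢ range K, |(t x.1 x.2 : ℝ) * beta q (x.1 * c + x.2 * q) k *
      ((b : ℝ) ^ x.1 * B0 ^ (L - 1 - x.1) * (X ^ x.2 * A ^ (K - 1 - x.2)))| ≤
      B * ((q : ℝ) ^ (2 * k) * 2 ^ G) * H := by
    intro x hx
    have h1 := (mem_product.mp hx).1
    have h2 := (mem_product.mp hx).2
    rw [mem_range] at h1 h2
    rcases Nat.lt_or_ge x.2 (Kf x.1) with h3 | h3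
    · rw [abs_mul, abs_mul, abs_mul, abs_mul, abs_mul, abs_pow, abs_pow, abs_pow, abs_pow]
      have h5 : |((beta q (x.1 * c + x.2 * q) k : ℤ) : ℝ)| ≤ (q : ℝ) ^ (2 * k) * 2 ^ G := by
        have h6 : ((x.1 : ℤ) * c + (x.2 : ℕ) * q) ≤ G * q := by
          have h7 : x.1 * c + x.2 * q ≤ G * q :=
            (add_le_add (Nat.mul_le_mul_right _ (by omega))
              (Nat.mul_le_mul_right _ (by omega))).trans hG
          exact_mod_cast h7
        have h8 := abs_beta_le hq (by positivity) h6 k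
        exact_mod_cast h8
      have h9 := hB x.1 x.2
      have h10 := hH x.1 h1 x.2 h3 h2
      gcongr
    · rw [hts _ _ h3]
      simp only [Int.cast_zero, zero_mul, abs_zero]
      positivity
  refine (sum_le_sum hterm).trans ?_
  rw [sum_const, card_product, card_range, card_range, nsmul_eq_mul]
  refine le_of_eq ?_
  push_cast
  ring

theorem main_ineq_tri {q : ℕ} (hq : q.Prime) {c L K M G N : ℕ} {Kf : ℕ → ℕ} (hc : ¬ q ∣ c)
    (hL : 1 ≤ L) (hLq : L ≤ q) (hKf : ∀ i < L, Kf i ≤ K) (hN : N = ∑ i ∈ range L, Kf i)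
    (hM : 1 ≤ M) (hMN : M < N) (hG : (L - 1) * c + (K - 1) * q ≤ G * q)
    {b B0 X A : ℤ} (hb : b ≠ 0) (hB0 : B0 ≠ 0) (hX : X ≠ 0) (hA : A ≠ 0) (hXA : X ≠ A)
    {D : ℕ} (hD : IsCoprime (D : ℤ) (q * A * B0)) (hDXA : (D : ℤ) ∣ X - A)
    (hpow : (D : ℤ) ^ M ∣ b ^ q * A ^ c - X ^ c * B0 ^ q) (hnil : ∃ N : ℕ, (D : ℤ) ∣ (b - B0) ^ N)
    {W : ℤ} (hW0 : W ≠ 0) (hWD : IsCoprime (D : ℤ) W)
    (hWdvd : ∀ i < L, ∀ j < Kf i, j < K → W ∣ B0 ^ (L - 1 - i) * A ^ (K - 1 - j)) {H : ℝ} (hH0 : 0 ≤ H)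
    (hH : ∀ i < L, ∀ j < Kf i, j < K → |(b : ℝ)| ^ i * |(B0 : ℝ)| ^ (L - 1 - i) *
      (|(X : ℝ)| ^ j * |(A : ℝ)| ^ (K - 1 - j)) ≤ |(W : ℝ)| * H) :
    ∃ e : ℕ, e ≤ M ∧ M ≤ e + (N + L - M - 2) ∧ (D : ℝ) ^ e ≤ CT q L K N M G * H := by
  obtain ⟨t, ht0, hts, ht, hB⟩ := exists_coeffs_tri hq (c := c) (L := L) (K := K) (M := M) (G := G)
    hKf hN hM hMN hG
  obtain ⟨k, hk, hNk⟩ := exists_Nk_ne_zero_tri hq hc hLq hN hMN ht0 hts ht hb hB0 hX hA hXA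
  have hdvd := dvd_Nk_nil hq ht hD hDXA hpow hnil k
  have hWN : W ∣ Nk q c L K t b B0 X A k := by
    rw [Nk]
    refine dvd_sum ?_
    intro i hi
    refine dvd_sum ?_
    intro j hj
    rw [mem_range] at hi hj
    rcases Nat.lt_or_ge j (Kf i) with h | h
    · obtain ⟨v, hv⟩ := hWdvd i hi j h hj
      refine ⟨t i j * beta q (i * c + j * q) k * (b ^ i * X ^ j) * v, ?_⟩
      linear_combination (t i j * beta q (i * c + j * q) k * (b ^ i * X ^ j)) * hv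
    · rw [hts _ _ h]
      simp
  have hDW : (D : ℤ) ^ (M - k) * W ∣ Nk q c L K t b B0 X A k :=
    (hWD.pow_left).mul_dvd hdvd hWN
  have hWpos : (0 : ℝ) < |(W : ℝ)| := abs_pos.mpr (by exact_mod_cast hW0)
  have hle : (D : ℝ) ^ (M - k) * |(W : ℝ)| ≤ |(Nk q c L K t b B0 X A k : ℝ)| := by
    have h1 : |(D : ℤ) ^ (M - k) * W| ≤ |Nk q c L K t b B0 X A k| :=
      Int.le_of_dvd (abs_pos.mpr hNk) ((abs_dvd _ _).mpr ((dvd_abs _ _).mpr hDW))
    rw [abs_mul, abs_pow, Nat.abs_cast] at h1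
    exact_mod_cast h1
  have h1 := abs_Nk_le_tri hq hG hts hB (mul_nonneg hWpos.le hH0) hH k
  obtain ⟨B, hBdef⟩ : ∃ B : ℝ, B = ((N : ℕ) * ((q : ℝ) ^ (2 * M) * 2 ^ G)) ^
    ((M : ℝ) / ((N : ℕ) - M)) := ⟨_, rfl⟩
  rw [← hBdef] at hB h1
  have hB' : 0 ≤ B := (abs_nonneg _).trans (hB 0 0)
  have hq1 : (1 : ℝ) ≤ q := by exact_mod_cast hq.one_lt.le
  have hqk : (q : ℝ) ^ (2 * k) ≤ (q : ℝ) ^ (2 * (N + L - M - 2)) :=
    pow_le_pow_right₀ hq1 (by omega)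
  refine ⟨M - k, by omega, by omega, ?_⟩
  rw [CT, ← hBdef]
  have h2 : (L * K : ℕ) * B * ((q : ℝ) ^ (2 * k) * 2 ^ G) * (|(W : ℝ)| * H) ≤
      ((L * K : ℕ) * B * ((q : ℝ) ^ (2 * (N + L - M - 2)) * 2 ^ G) * H) * |(W : ℝ)| := by
    calc (L * K : ℕ) * B * ((q : ℝ) ^ (2 * k) * 2 ^ G) * (|(W : ℝ)| * H) ≤
        (L * K : ℕ) * B * ((q : ℝ) ^ (2 * (N + L - M - 2)) * 2 ^ G) * (|(W : ℝ)| * H) := by gcongr
      _ = _ := by ring
  exact le_of_mul_le_mul_right (hle.trans (h1.trans h2)) hWpos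

/-- An upper bound for the logarithm of the constant. -/
lemma log_CT_le {q L K N M G P : ℕ} {ρ : ℝ} (hq2 : 2 ≤ q) (hL : 1 ≤ L) (hK : 1 ≤ K)
    (hKP : K ≤ P) (hMP : M ≤ P) (hNP : N ≤ 2 * P) (hGP : G ≤ P) (hLP : L ≤ P) (hP : 1 ≤ P)
    (hMN : M < N) (hρ : (M : ℝ) ≤ ρ * ((N : ℕ) - M)) (hρ0 : 0 ≤ ρ) :
    Real.log (CT q L K N M G) ≤ (4 * ρ + 12) * (P * q) := by
  have hq0 : (0 : ℝ) < q := by exact_mod_cast (show 0 < q by omega)
  have hqR : (2 : ℝ) ≤ q := by exact_mod_cast hq2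
  have hlogq0 : 0 ≤ Real.log q := Real.log_nonneg (by linarith)
  have hlogq : Real.log q ≤ q / 2 := by
    have h1 : Real.log q = Real.log (q / 2) + Real.log 2 := by
      rw [← Real.log_mul (by positivity) (by norm_num)]
      congr 1
      ring
    have h2 := Real.log_le_sub_one_of_pos (show (0 : ℝ) < q / 2 by positivity)
    have h3 := Real.log_two_lt_d9
    linarith
  have hlog2 : Real.log 2 ≤ 1 := by
    have := Real.log_two_lt_d9
    linarith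
  have hlog20 : 0 ≤ Real.log 2 := Real.log_nonneg (by norm_num)
  have hNR : (1 : ℝ) ≤ N := by exact_mod_cast (show 1 ≤ N by omega)
  have hNM : (0 : ℝ) < (N : ℝ) - M := by
    have : (M : ℝ) < N := by exact_mod_cast hMN
    linarith
  have hLKpos : (0 : ℝ) < (L * K : ℕ) := by
    have : 0 < L * K := Nat.mul_pos hL hK
    exact_mod_cast this
  have hLR : (0 : ℝ) < L := by exact_mod_cast hL
  have hKR : (0 : ℝ) < K := by exact_mod_cast hK
  rw [CT, Real.log_mul (by positivity) (by positivity), Real.log_mul (by positivity) (by positivity),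
    Real.log_rpow (by positivity), Real.log_mul (by positivity) (by positivity),
    Real.log_mul (by positivity) (by positivity), Real.log_mul (by positivity) (by positivity),
    Real.log_pow, Real.log_pow, Real.log_pow]
  have hPR : (1 : ℝ) ≤ P := by exact_mod_cast hP
  have hKPR : (K : ℝ) ≤ P := by exact_mod_cast hKP
  have hMPR : (M : ℝ) ≤ P := by exact_mod_cast hMP
  have hNPR : (N : ℝ) ≤ 2 * P := by exact_mod_cast hNP
  have hGPR : (G : ℝ) ≤ P := by exact_mod_cast hGP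
  have hLPR : (L : ℝ) ≤ P := by exact_mod_cast hLP
  have hlogLK : Real.log (L * K : ℕ) ≤ 2 * P := by
    push_cast
    rw [Real.log_mul hLR.ne' hKR.ne']
    have h1 := Real.log_le_sub_one_of_pos hLR
    have h2 := Real.log_le_sub_one_of_pos hKR
    linarith
  have hlogN : Real.log N ≤ 2 * P := by
    have := Real.log_le_sub_one_of_pos (show (0 : ℝ) < N by linarith)
    linarith
  have hlogN0 : 0 ≤ Real.log N := Real.log_nonneg hNR
  have hratio : (M : ℝ) / (N - M) ≤ ρ := by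
    rw [div_le_iff₀ hNM]
    exact hρ
  have hratio0 : 0 ≤ (M : ℝ) / (N - M) := by positivity
  have hPq : (P : ℝ) ≤ P * q / 2 := by nlinarith
  have hPq0 : 0 ≤ (P : ℝ) * q := by positivity
  have hG0 : (0 : ℝ) ≤ G := Nat.cast_nonneg _
  have hterm1 : ((2 * M : ℕ) : ℝ) * Real.log q ≤ P * q := by
    push_cast
    calc 2 * (M : ℝ) * Real.log q ≤ 2 * P * (q / 2) := by gcongr
      _ = _ := by ring
  have hterm2 : (G : ℝ) * Real.log 2 ≤ P * q / 2 := by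
    calc (G : ℝ) * Real.log 2 ≤ P * 1 := by gcongr
      _ ≤ _ := by linarith
  have hterm3 : ((2 * (N + L - M - 2) : ℕ) : ℝ) * Real.log q ≤ 3 * (P * q) := by
    have h1 : ((2 * (N + L - M - 2) : ℕ) : ℝ) ≤ 6 * P := by
      have h2 : 2 * (N + L - M - 2) ≤ 6 * P := by omega
      exact_mod_cast h2
    calc ((2 * (N + L - M - 2) : ℕ) : ℝ) * Real.log q ≤ 6 * P * (q / 2) := by gcongr
      _ = _ := by ring
  have hinner : Real.log N + ((2 * M : ℕ) * Real.log q + G * Real.log 2) ≤ 4 * (P * q) := by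
    linarith
  have hinner0 : 0 ≤ Real.log N + ((2 * M : ℕ) * Real.log q + G * Real.log 2) := by positivity
  have hprod : (M : ℝ) / (N - M) * (Real.log N + ((2 * M : ℕ) * Real.log q + G * Real.log 2)) ≤
      ρ * (4 * (P * q)) := mul_le_mul hratio hinner hinner0 hρ0
  nlinarith

end Pool.Agent.K9h9.T3
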