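import Mathlib
import Pool.Agent.K9h9.T3.Main

/-!
# The lower bound for the height, given a bound for the prime exponent
-/

set_option autoImplicit false

namespace Pool.Agent.K9h9.T3

open Finset

lemma rel_real {L ε p g ℓ X e n C c θ r lam : ℝ} (hL : 1 ≤ L) (hε : 0 < ε) (hp : 1 ≤ p)
    (hg : 8 * L ≤ ε * g) (hg0 : 0 < g) (hP : 12 * L ^ 2 ≤ ε * p) (hℓ : 0 ≤ ℓ) (hθ : 0 ≤ θ) (hr : 0 < r)
    (he : p + 2 - p / g - 2 * L ≤ e) (hn : L * n ≤ L + p + p / g + lam * (L * (L - 1) / 2))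
    (hX0 : 0 ≤ X) (hX : X < (L * (1 - θ * (L - 1) / (2 * r)) - ε) * ℓ)
    (hlam : lam * X ≤ θ * p * ℓ / r) (hmain : e * ℓ ≤ C * p + c + n * X) (hc : 0 ≤ c) :
    ε * ℓ ≤ 2 * (L * C + L * c) := by
  have hL0 : 0 < L := by linarith
  obtain ⟨u, hu⟩ : ∃ u, u = θ * (L - 1) / (2 * r) := ⟨_, rfl⟩
  have hu0 : 0 ≤ u := by
    rw [hu]
    apply div_nonneg _ (by linarith)
    exact mul_nonneg hθ (by linarith)
  rw [← hu] at hX
  have h1 : lam * (L * (L - 1) / 2) * X ≤ L * p * ℓ * u := by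
    calc lam * (L * (L - 1) / 2) * X = (L * (L - 1) / 2) * (lam * X) := by ring
      _ ≤ (L * (L - 1) / 2) * (θ * p * ℓ / r) := by
          apply mul_le_mul_of_nonneg_left hlam
          have : 0 ≤ L * (L - 1) := mul_nonneg hL0.le (by linarith)
          linarith
      _ = _ := by
          rw [hu]
          field_simp
  have h2 : L * n * X ≤ (L + p + p / g + lam * (L * (L - 1) / 2)) * X :=
    mul_le_mul_of_nonneg_right hn hX0
  have h3 : (p + 2 - p / g - 2 * L) * ℓ ≤ e * ℓ := mul_le_mul_of_nonneg_right he hℓ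
  have hXL : X ≤ L * ℓ := by
    have h4 : (L * (1 - u) - ε) * ℓ ≤ L * ℓ := by
      apply mul_le_mul_of_nonneg_right _ hℓ
      nlinarith
    linarith
  have hpg : 0 ≤ p / g := by positivity
  have h4 : (L + p / g) * X ≤ (L + p / g) * (L * ℓ) :=
    mul_le_mul_of_nonneg_left hXL (by positivity)
  have h5 : p * X ≤ p * ((L * (1 - u) - ε) * ℓ) := mul_le_mul_of_nonneg_left hX.le (by linarith)
  have h6 : L * ((p + 2 - p / g - 2 * L) * ℓ) ≤ L * (C * p + c) + (L + p + p / g) * X + L * p * ℓ * u := by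
    have h7 : L * ((p + 2 - p / g - 2 * L) * ℓ) ≤ L * (C * p + c + n * X) :=
      mul_le_mul_of_nonneg_left (h3.trans hmain) hL0.le
    have h8 : L * (C * p + c + n * X) = L * (C * p + c) + L * n * X := by ring
    have h9 : (L + p + p / g + lam * (L * (L - 1) / 2)) * X =
      (L + p + p / g) * X + lam * (L * (L - 1) / 2) * X := by ring
    linarith
  have h7 : ε * p * ℓ ≤ L * (C * p + c) + 2 * (L * (p / g) * ℓ) + 3 * L ^ 2 * ℓ := by
    have h8 : (L + p + p / g) * X = (L + p / g) * X + p * X := by ring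
    have h9 : 0 ≤ L * ℓ := by positivity
    nlinarith
  have h8 : 2 * (L * (p / g) * ℓ) ≤ ε * p * ℓ / 4 := by
    have h9 : L * (p / g) ≤ ε * p / 8 := by
      rw [← mul_div_assoc, div_le_iff₀ hg0]
      nlinarith
    nlinarith
  have h9 : 3 * L ^ 2 * ℓ ≤ ε * p * ℓ / 4 := by nlinarith
  have h10 : ε * p * ℓ / 2 ≤ p * (L * C + L * c) := by
    have h11 : L * c ≤ p * (L * c) := by
      have : 0 ≤ L * c := by positivity
      nlinarith
    nlinarith
  have h11 : p * (ε * ℓ) ≤ p * (2 * (L * C + L * c)) := by linarith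
  exact le_of_mul_le_mul_left h11 (by linarith)

/-- The height lower bound. -/
theorem rel (θ ε : ℝ) (hθ : 0 ≤ θ) (hε : 0 < ε) (L R κ : ℕ) (hL : 1 ≤ L) : ∃ D₀ P₀ : ℕ,
    ∀ (b B0 X A : ℤ) (r q p D : ℕ) (σ : ℕ → ℕ) (H lam : ℝ), D₀ ≤ D → P₀ ≤ p → r.Prime → L ≤ r →
      r ≤ R → ¬ r ∣ q → q ≤ κ * p → b ≠ 0 → B0 ≠ 0 → X ≠ 0 → A ≠ 0 → X ≠ A →
      IsCoprime (D : ℤ) (r * A * B0) → (D : ℤ) ∣ X - A → (D : ℤ) ^ p ∣ b ^ r * A ^ q - X ^ q * B0 ^ r →
      (∃ N : ℕ, (D : ℤ) ∣ (b - B0) ^ N) → (D : ℝ) ≤ H ^ 2 → 1 ≤ H → 0 ≤ lam →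
      (∀ i < L, (σ i : ℝ) ≤ lam * i + 1) → lam * Real.log H ≤ θ * p * Real.log D / r →
      (∀ n : ℕ, ∃ W : ℤ, W ≠ 0 ∧ IsCoprime (D : ℤ) W ∧ ∀ i < L, ∀ j, σ i + j ≤ n →
        W ∣ B0 ^ (L - 1 - i) * A ^ (n - j) ∧
        |(b : ℝ)| ^ i * |(B0 : ℝ)| ^ (L - 1 - i) * (|(X : ℝ)| ^ j * |(A : ℝ)| ^ (n - j)) ≤
          |(W : ℝ)| * (2 ^ L * H ^ n)) →
      (L * (1 - θ * (L - 1) / (2 * r)) - ε) * Real.log D ≤ Real.log H := by
  obtain ⟨g, hg⟩ : ∃ g : ℕ, g = ⌈8 * L / ε⌉₊ + 1 := ⟨_, rfl⟩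
  have hg1 : 1 ≤ g := by rw [hg]; exact Nat.le_add_left _ _
  have hεg : 8 * (L : ℝ) ≤ ε * g := by
    have h1 : 8 * (L : ℝ) / ε ≤ g := by
      rw [hg]
      push_cast
      exact (Nat.le_ceil _).trans (by linarith)
    rw [div_le_iff₀ hε] at h1
    linarith
  obtain ⟨κ₁, hκ₁⟩ : ∃ κ₁ : ℕ, κ₁ = L * κ + 4 + ⌈θ⌉₊ * L + L + 4 := ⟨_, rfl⟩
  obtain ⟨C₁, hC₁⟩ : ∃ C₁ : ℝ, C₁ = (4 * g + 12) * (κ₁ * R) := ⟨_, rfl⟩
  have hC₁0 : 0 ≤ C₁ := by rw [hC₁]; positivity
  refine ⟨⌈Real.exp ((2 * (L * C₁ + L * L) + 1) / ε)⌉₊ + 2, ⌈12 * (L : ℝ) ^ 2 / ε⌉₊ + L + 1, ?_⟩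
  intro b B0 X A r q p D σ H lam hD hp hr hLr hrR hrq hqp hb hB0 hX hA hXA hcop hDXA hpow hnil hDH hH1
    hlam0 hσ hlam hW
  have hLR : (1 : ℝ) ≤ L := by exact_mod_cast hL
  have hD2 : 2 ≤ D := by omega
  have hDR : (2 : ℝ) ≤ D := by exact_mod_cast hD2
  have hD0R : (0 : ℝ) < D := by linarith
  obtain ⟨ℓ, hℓ⟩ : ∃ ℓ, ℓ = Real.log D := ⟨_, rfl⟩
  have hℓlow : (2 * (L * C₁ + L * L) + 1) / ε ≤ ℓ := by
    rw [hℓ, Real.le_log_iff_exp_le hD0R]
    have h1 : ((⌈Real.exp ((2 * (L * C₁ + L * L) + 1) / ε)⌉₊ + 2 : ℕ) : ℝ) ≤ D := by exact_mod_cast hD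
    push_cast at h1
    linarith [Nat.le_ceil (Real.exp ((2 * (L * C₁ + L * L) + 1) / ε))]
  have hℓ0 : 0 < ℓ := by
    refine lt_of_lt_of_le ?_ hℓlow
    positivity
  have hpP : ⌈12 * (L : ℝ) ^ 2 / ε⌉₊ ≤ p := by omega
  have hpL : L < p := by omega
  have hp1 : 1 ≤ p := by omega
  have hpR : (1 : ℝ) ≤ p := by exact_mod_cast hp1
  have hP : 12 * (L : ℝ) ^ 2 ≤ ε * p := by
    have h1 : 12 * (L : ℝ) ^ 2 / ε ≤ p := (Nat.le_ceil _).trans (by exact_mod_cast hpP)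
    rw [div_le_iff₀ hε] at h1
    linarith
  have hr2 := hr.two_le
  have hrR2 : (2 : ℝ) ≤ r := by exact_mod_cast hr2
  have hrpos : (0 : ℝ) < r := by linarith
  by_contra hcon
  push Not at hcon
  obtain ⟨Y, hY⟩ : ∃ Y, Y = Real.log H := ⟨_, rfl⟩
  rw [← hY, ← hℓ] at hcon hlam
  have hH0 : 0 < H := by linarith
  have hYℓ : ℓ ≤ 2 * Y := by
    rw [hℓ, hY]
    have h1 := Real.log_le_log hD0R hDH
    rw [Real.log_pow] at h1
    push_cast at h1
    exact h1
  have hY0 : 0 ≤ Y := by linarith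
  have hlamp : lam ≤ θ * p := by
    have h1 : lam * ℓ ≤ θ * p * ℓ := by
      calc lam * ℓ ≤ lam * (2 * Y) := mul_le_mul_of_nonneg_left hYℓ hlam0
        _ = 2 * (lam * Y) := by ring
        _ ≤ 2 * (θ * p * ℓ / r) := by linarith
        _ = (2 / r) * (θ * p * ℓ) := by ring
        _ ≤ 1 * (θ * p * ℓ) := by
            apply mul_le_mul_of_nonneg_right _ (by positivity)
            rw [div_le_one hrpos]
            exact hrR2
        _ = _ := one_mul _
    exact le_of_mul_le_mul_right h1 hℓ0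
  -- the choice of `n`
  obtain ⟨N', hN'⟩ : ∃ N' : ℕ → ℕ, N' = fun n => ∑ i ∈ range L, (n + 1 - σ i) := ⟨_, rfl⟩
  obtain ⟨d, hd⟩ : ∃ d, d = p / g := ⟨_, rfl⟩
  have hdR : (d : ℝ) ≤ (p : ℝ) / g := by rw [hd]; exact Nat.cast_div_le
  obtain ⟨N₀, hN₀⟩ : ∃ N₀, N₀ = p + d + 1 := ⟨_, rfl⟩
  have hex : ∃ n, N₀ ≤ N' n := by
    refine ⟨N₀ + σ 0, ?_⟩
    rw [hN']
    have h1 := single_le_sum (s := range L) (f := fun i => N₀ + σ 0 + 1 - σ i)
      (fun _ _ => Nat.zero_le _) (mem_range.mpr (show 0 < L by omega))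
    simp only at h1 ⊢
    omega
  classical
  obtain ⟨n, hn1, hn2⟩ : ∃ n, N₀ ≤ N' n ∧ ∀ m < n, N' m < N₀ := by
    refine ⟨Nat.find hex, Nat.find_spec hex, ?_⟩
    intro m hm
    have := Nat.find_min hex hm
    omega
  have hN'0 : N' 0 ≤ L := by
    rw [hN']
    simp only
    calc ∑ i ∈ range L, (0 + 1 - σ i) ≤ ∑ i ∈ range L, 1 := sum_le_sum (fun i _ => by omega)
      _ = L := by simp
  have hn0 : 0 < n := by
    by_contra h
    have h1 : n = 0 := by omega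
    rw [h1] at hn1
    omega
  have hstep : N' n ≤ N' (n - 1) + L := by
    rw [hN']
    simp only
    have h1 : ∑ i ∈ range L, (n - 1 + 1 - σ i) + L = ∑ i ∈ range L, ((n - 1 + 1 - σ i) + 1) := by
      rw [sum_add_distrib]
      simp
    rw [h1]
    refine sum_le_sum ?_
    intro i _
    omega
  have hpred := hn2 (n - 1) (by omega)
  have hNle : N' n ≤ p + d + L := by omega
  have hpg : d ≤ p := by rw [hd]; exact Nat.div_le_self p g
  have hnbound : (L : ℝ) * n ≤ L + p + p / g + lam * (L * (L - 1) / 2) := by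
    have h1 : ∑ i ∈ range L, ((n : ℝ) - (lam * i + 1)) ≤ (N' (n - 1) : ℝ) := by
      rw [hN']
      simp only
      push_cast
      refine sum_le_sum ?_
      intro i hi
      have h2 := hσ i (mem_range.mp hi)
      rcases Nat.le_total (σ i) (n - 1 + 1) with h3 | h3
      · rw [Nat.cast_sub h3]
        have h4 : n - 1 + 1 = n := by omega
        rw [h4]
        linarith
      · have h4 : n - 1 + 1 - σ i = 0 := by omega
        rw [h4]
        have h5 : ((n - 1 + 1 : ℕ) : ℝ) ≤ σ i := by exact_mod_cast h3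
        have h6 : n - 1 + 1 = n := by omega
        rw [h6] at h5
        push_cast
        linarith
    have h2 : ∑ i ∈ range L, ((n : ℝ) - (lam * i + 1)) = L * n - L - lam * (L * (L - 1) / 2) := by
      rw [sum_sub_distrib, sum_add_distrib, ← mul_sum, sum_const, sum_const, card_range, nsmul_eq_mul,
        nsmul_eq_mul, mul_one]
      have h3 : ∑ i ∈ range L, (i : ℝ) = L * (L - 1) / 2 := by
        have h4 := Finset.sum_range_id_mul_two L
        have h5 : ((∑ i ∈ range L, i : ℕ) : ℝ) * 2 = L * (L - 1) := by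
          have h6 : (((∑ i ∈ range L, i) * 2 : ℕ) : ℝ) = ((L * (L - 1) : ℕ) : ℝ) := by rw [h4]
          push_cast [Nat.cast_sub hL] at h6
          push_cast
          exact h6
        push_cast at h5
        linarith
      rw [h3]
      ring
    have h3 : (N' (n - 1) : ℝ) + 1 ≤ p + p / g + 1 := by
      have h4 : N' (n - 1) + 1 ≤ p + d + 1 := by omega
      have h5 : ((N' (n - 1) + 1 : ℕ) : ℝ) ≤ ((p + d + 1 : ℕ) : ℝ) := by exact_mod_cast h4
      push_cast at h5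
      linarith
    linarith
  have hgR : (1 : ℝ) ≤ g := by exact_mod_cast hg1
  have hpgR : (p : ℝ) / g ≤ p := div_le_self (by positivity) hgR
  -- sizes
  have hLr' : (L : ℝ) ≤ r := by exact_mod_cast hLr
  obtain ⟨P, hPdef⟩ : ∃ P, P = κ₁ * p := ⟨_, rfl⟩
  have hnP : n + 1 ≤ (4 + ⌈θ⌉₊ * L) * p := by
    have h1 : (L : ℝ) * n ≤ L * (3 * p + θ * p * L) := by
      have h2 : lam * (L * (L - 1) / 2) ≤ θ * p * (L * L) := by
        have h3 : (L : ℝ) * (L - 1) / 2 ≤ L * L := by nlinarith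
        have h4 : 0 ≤ (L : ℝ) * (L - 1) / 2 := by
          have : 0 ≤ (L : ℝ) * (L - 1) := mul_nonneg (by linarith) (by linarith)
          linarith
        exact mul_le_mul hlamp h3 h4 (by positivity)
      have h3 : (L : ℝ) ≤ p := by exact_mod_cast hpL.le
      nlinarith
    have h2 : (n : ℝ) ≤ 3 * p + θ * p * L := le_of_mul_le_mul_left h1 (by linarith)
    have h3 : θ * p * L ≤ ⌈θ⌉₊ * p * L := by
      have := Nat.le_ceil θ
      gcongr
    have h4 : (n : ℝ) + 1 ≤ (4 + ⌈θ⌉₊ * L) * p := by nlinarith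
    exact_mod_cast h4
  obtain ⟨W, hW0, hWD, hWij⟩ := hW n
  obtain ⟨e, he1, he2, he3⟩ := main_ineq_tri (q := r) (c := q) (L := L) (K := n + 1) (M := p)
    (G := (L - 1) * q + n) (N := N' n) (Kf := fun i => n + 1 - σ i) hr hrq hL hLr
    (fun i _ => Nat.sub_le _ _) (by rw [hN']) hp1 (by omega) (by
      have h1 : (L - 1) * q ≤ (L - 1) * q * r := Nat.le_mul_of_pos_right _ hr.pos
      calc (L - 1) * q + (n + 1 - 1) * r ≤ (L - 1) * q * r + n * r := by
            rw [Nat.add_sub_cancel]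
            omega
        _ = _ := by ring) hb hB0 hX hA hXA hcop hDXA hpow hnil (W := W) (H := 2 ^ L * H ^ n) hW0 hWD
    (by
      intro i hi j hj _
      have := (hWij i hi j (by omega)).1
      rwa [Nat.add_sub_cancel]) (by positivity) (by
      intro i hi j hj _
      have := (hWij i hi j (by omega)).2
      rwa [Nat.add_sub_cancel])
  have hCT := log_CT_le (q := r) (L := L) (K := n + 1) (N := N' n) (M := p) (G := (L - 1) * q + n)
    (P := P) (ρ := g) hr2 hL (by omega) ?_ ?_ ?_ ?_ ?_ ?_ (by omega) ?_ (by positivity)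
  · -- the final inequality
    have hepos : 0 < CT r L (n + 1) (N' n) p ((L - 1) * q + n) := by
      have h1 : 0 < CT r L (n + 1) (N' n) p ((L - 1) * q + n) * (2 ^ L * H ^ n) :=
        lt_of_lt_of_le (by positivity) he3
      exact (pos_iff_pos_of_mul_pos h1).mpr (by positivity)
    have hlog : (e : ℝ) * ℓ ≤ Real.log (CT r L (n + 1) (N' n) p ((L - 1) * q + n)) + (L + n * Y) := by
      have h1 := Real.log_le_log (by positivity) he3
      rw [Real.log_mul hepos.ne' (by positivity), Real.log_mul (by positivity) (by positivity),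
        Real.log_pow, Real.log_pow, Real.log_pow, ← hℓ, ← hY] at h1
      have h2 : (L : ℝ) * Real.log 2 ≤ L * 1 := by
        have := Real.log_two_lt_d9
        gcongr
        linarith
      linarith
    have hCT2 : Real.log (CT r L (n + 1) (N' n) p ((L - 1) * q + n)) ≤ C₁ * p := by
      refine hCT.trans ?_
      have h1 : (r : ℝ) ≤ R := by exact_mod_cast hrR
      rw [hC₁, hPdef]
      push_cast
      calc (4 * (g : ℝ) + 12) * ((κ₁ : ℝ) * p * r) ≤ (4 * g + 12) * (κ₁ * p * R) := by gcongr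
        _ = _ := by ring
    have heR : (p : ℝ) + 2 - p / g - 2 * L ≤ e := by
      have h1 : p + 2 ≤ e + d + 2 * L := by omega
      have h2 : ((p + 2 : ℕ) : ℝ) ≤ ((e + d + 2 * L : ℕ) : ℝ) := by exact_mod_cast h1
      push_cast at h2
      linarith
    have hfin := rel_real (L := L) (ε := ε) (p := p) (g := g) (ℓ := ℓ) (X := Y) (e := e) (n := n)
      (C := C₁) (c := L) (θ := θ) (r := r) (lam := lam) hLR hε hpR hεg (by linarith) hP hℓ0.le hθ hrpos
      heR hnbound hY0 hcon hlam (by linarith) (by linarith)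
    rw [div_le_iff₀ hε] at hℓlow
    linarith
  · rw [hPdef, hκ₁]
    refine hnP.trans (Nat.mul_le_mul_right _ (by omega))
  · rw [hPdef, hκ₁]
    exact Nat.le_mul_of_pos_left _ (by omega)
  · rw [hPdef, hκ₁]
    calc N' n ≤ 3 * p := by omega
      _ ≤ (L * κ + 4 + ⌈θ⌉₊ * L + L + 4) * p := Nat.mul_le_mul_right _ (by omega)
      _ ≤ _ := Nat.le_mul_of_pos_left _ (by norm_num)
  · rw [hPdef, hκ₁]
    have h1 : (L - 1) * q ≤ (L * κ) * p := by
      calc (L - 1) * q ≤ L * (κ * p) := Nat.mul_le_mul (Nat.sub_le _ _) hqp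
        _ = _ := by ring
    calc (L - 1) * q + n ≤ (L * κ) * p + (4 + ⌈θ⌉₊ * L) * p := by omega
      _ = (L * κ + 4 + ⌈θ⌉₊ * L) * p := by ring
      _ ≤ _ := Nat.mul_le_mul_right _ (by omega)
  · rw [hPdef, hκ₁]
    calc L ≤ 1 * p := by omega
      _ ≤ _ := Nat.mul_le_mul_right _ (by omega)
  · rw [hPdef, hκ₁]
    have : 0 < (L * κ + 4 + ⌈θ⌉₊ * L + L + 4) * p := by positivity
    omega
  · have h1 : p + d + 1 ≤ N' n := by omega
    have h2 : ((p + d + 1 : ℕ) : ℝ) ≤ ((N' n : ℕ) : ℝ) := by exact_mod_cast h1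
    have h3 : (p : ℝ) ≤ g * ((d : ℝ) + 1) := by
      have h4 := Nat.lt_div_mul_add (a := p) (show 0 < g by omega)
      rw [← hd] at h4
      have h5 : p ≤ g * (d + 1) := by
        have : g * (d + 1) = d * g + g := by ring
        omega
      exact_mod_cast h5
    have h4 : (g : ℝ) * ((d : ℝ) + 1) ≤ g * ((N' n : ℕ) - p) := by
      apply mul_le_mul_of_nonneg_left _ (by linarith)
      push_cast at h2
      linarith
    exact h3.trans h4

end Pool.Agent.K9h9.T3
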